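import Pool.Agent.Work.MP_8c604c_gt.P.Fin

open Pool.Agent.Work.MP_8c604c_gt.OM.St Pool.Agent.Work.MP_8c604c_gt.U

theorem Pool.Agent.Results.MP_8c604c_gt.Blaschke.result (d n : ℕ)
    (hdn : ((d = 2 ∨ d = 4) ∧ 2 ≤ n) ∨ (d = 8 ∧ n = 2)) (g : Met (MatN n)) (hg : IsMetric (KP d n) g)
    (D : ℝ) (hD : 0 < D)
    (hmin : ∀ c, IsUnitGeodesic (KP d n) g c → ∀ γ, Joins (KP d n) γ (c 0) (c D) → D ≤ len g γ)
    (hcut : ∀ c, IsUnitGeodesic (KP d n) g c → ∀ t, D < t →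
      ∃ γ, Joins (KP d n) γ (c 0) (c t) ∧ len g γ < t) :
    ∃ (Ψ : MatN n → MatN n) (c : ℝ), Set.BijOn Ψ (KP d n) (KP d n) ∧ 0 < c ∧ PullsBack (KP d n) g Ψ c :=
  Pool.Agent.Work.MP_8c604c_gt.P.cut_rig (Pool.Agent.Work.MP_8c604c_gt.P.model_KP hdn) (rig_all hdn) hg hD
    hmin hcut
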